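import Mathlib
import Pool.Agent.X300.HS.Div

/-!
# The Hodge standard conjecture for `A × Z` and almost all abelian varieties `A`

Let `A` be a product of powers of abelian varieties of dimensions `g i` over the field with `q`
elements (over an extension with `Q = q ^ s` elements and up to isogeny), given by their Weil
polynomials `f i`, and let `Z` be a smooth projective variety over the field with `Q` elements, for
example an abelian variety.

The theorem says that for almost all families `f` of Weil polynomials (all but a proportion
`O (q ^ (-1 / 6) log q)`, for all isogeny classes as well as for the ordinary ones) the numerical
Hodge standard conjecture for `Z` implies the one for `A × Z`, for all `Z` whose Frobenius eigenvalues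
lie, up to powers, in a group generated by the nonzero elements of the number field `E` and `r < g i`
further numbers. If `Z` is an abelian variety of dimension at most `r` this condition holds with
`E = ℚ`. The ample class on `A × Z` is a sum of those of `A` and `Z`, and we prove that every divisor
class on `A × Z` (modulo numerical equivalence, `Z` connected) is a sum of divisor classes from `A`
and `Z`. So all polarisations are included: restrict them to the factors.

By Ancona the Hodge standard conjecture is known for abelian varieties of dimension at most four. So
the theorem gives it for the products `A × Z`, where `Z` is an arbitrary abelian variety of dimension at
most four, with its exotic classes, `4 < g i`, and `f` is one of almost all families.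

We use the known facts on the Lefschetz classes of `A` (`IsPolarised`): the hard Lefschetz theorem
and the Hodge standard conjecture for the classes generated by divisors (Milne). What we prove is the
Kunneth formula for the cycles on `A × Z` and the positivity: on each string of primitive Lefschetz
classes of `A` the form is that of the product of `Z` with a projective space, with a sign.
-/

set_option autoImplicit false

namespace Pool.Agent.Results.MP_c0b458_ag.AlmostAllFactors

open Pool.Agent.Y156.L Pool.Agent.X300.RB Pool.Agent.X300.HS

/-- Let `r < g i` for all `i` and let `E` be a number field. Almost all families of abelian
varieties of dimensions `g i` over the field with `q` elements, given by their Weil polynomials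
`f i`, have the property `HodgeAllForRankOver E q r f`: for products `A` of powers of these abelian
varieties and all smooth projective `Z` of rank at most `r` over `E` the Hodge standard conjecture for
`Z` implies the Hodge standard conjecture for `A × Z`, and the divisor classes on `A × Z` are the sums
of those of `A` and `Z`. -/
theorem result {I : Type} [Fintype I] (g : I → ℕ) (r : ℕ) (hr : ∀ i, r < g i)
    (E : IntermediateField ℚ ℂ) [FiniteDimensional ℚ E] :
    AlmostAll g fun q f => HodgeAllForRankOver E q r f :=
  count_hodgeAll g r hr E

end Pool.Agent.Results.MP_c0b458_ag.AlmostAllFactors
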