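import Mathlib
import Pool.Agent.X296.Prod.Family
import Pool.Agent.X296.Prod.ElemS
import Pool.Agent.X311.NumHodge

/-!
# The numerical standard conjecture of Hodge type for all products of powers of the members of a
large family of simple abelian varieties over a fixed finite field

Over an algebraic closure of the field with `p` elements each abelian variety is isogenous to the
reduction `Y` of an abelian variety of CM type (`RedAV`; Honda, Tate). The field of definition has
`p ^ b` elements, `X = Y.X` is the lifting, a product of abelian varieties `X_i` of CM type `(E_i, Φ_i)`,
with rational homology `H_1(X) = ∏ E_i` (`Y.X.H1`), and `π_i ∈ E_i` is the Frobenius endomorphism of the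
reduction of `X_i`. The cohomology of `Y`, with coefficients in an algebraically closed field `Ω` (an
algebraic closure of `ℚ_ℓ`), consists of the alternating forms on `Ω ⊗ H_1(X)`.

The ground field with `q = p ^ a` elements is fixed, and so is no parameter that tends to infinity.
The theorem gives sets `S g` of Frobenius polynomials of absolutely simple ordinary abelian
varieties of dimension `g` over this field (`IsMember`, `IsLargeFamily`), that is, of isogeny classes:

* `S g` has at least `q ^ (g ^ 2 / 4 - C g log g)` members for `g ≥ g0`; the number of all isogeny
  classes of dimension `g` is `q ^ ((1 / 4 + o (1)) g ^ 2)` (DiPippo, Howe; Lipnowski, Tsimerman);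
* different members, of the same or of different dimensions, have CM fields that are not
  isomorphic (no roots of theirs generate the same field);
* each member is the Frobenius polynomial of an abelian variety in the sense of `RedAV`.

Let `Y` be an abelian variety each of whose factors is supersingular or isogenous, over a finite
extension, to a power of a member (`OfMembers`): `Y` is, over an algebraic closure, isogenous to a
product of arbitrary powers of any finite number of members, of any dimensions, and of a
supersingular abelian variety. The theorem is the numerical Hodge standard conjecture for `Y`, in all
codimensions, and all (compatible) polarizations: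

1. a class of algebraic cycles on `Y` which is numerically equivalent to zero is zero;
2. if `z` is an algebraic cycle of codimension `r`, `dim Y = 2 r + m`, with rational coefficients,
   whose product with the power `m + 1` of the polarization is numerically equivalent to zero, and `z`
   is not numerically equivalent to zero, then `(-1)^r z · z · E^m > 0`.

The space of the classes of algebraic cycles of degree `card κ` on `Y`, with rational coefficients, is
`C Y κ`. The properties of these spaces that are used are known theorems (`IsCycleSystemS`): they are
closed under sums, cup products, pull-backs and push-forwards, they contain the Hodge classes of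
degree two of the liftings (Lefschetz), the split Weil classes of degree four and six of the liftings
(Markman; they are not needed here) and the Hodge classes of degree four of the liftings that are
products of elliptic curves and abelian surfaces (Ramón Marí; not needed here), and the Tate classes
of degree two are combinations of such classes (Tate); the positivity of the Rosati involution (Weil,
`IsRosatiPositive`); classes of cycles are Tate classes over finite extensions (`AreTate`). The
polarizations are those compatible with the complex multiplications of the lifting (`IsPolar`); by
theorems of Honda, Tate and Zink each polarized abelian variety over an algebraic closure of a finite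
field is isogenous to the reduction of such a polarized abelian variety.

The proof: the members are constructed with an auxiliary prime number `l` such that an inertia
element at `l` exchanges the two elements of one complex conjugate pair of roots of each member and
fixes all the other roots, for all members at the same time. As the fields of different members are
different, a Galois element separates these pairs, and it follows that all multiplicative relations
between the roots of any finite number of members come from the complex conjugate pairs
(`Pool.Agent.X296.Prod`). So there are no exotic Tate classes on `Y`; the positivity for Lefschetz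
classes is a theorem of Milne, and here it follows from the theorem of helper311 on abelian varieties
with elementary relations (`X311.NumHodge`).
-/

set_option autoImplicit false

namespace Pool.Agent.Results.MP_c0b458_ag.FixedFieldProducts

open Module Polynomial Pool.Agent.X296.Prod Pool.Agent.W495.TA Pool.Agent.W547.KB
  Pool.Agent.TH117.PO Pool.Agent.TH117.BL Pool.Agent.Y137.SF Pool.Agent.Y137.HS
  Pool.Agent.X311.NumHodge

/-- The numerical standard conjecture of Hodge type, and the equality of homological and numerical
equivalence, for the abelian varieties whose factors are supersingular or belong to `S`. -/
def Holds {p : ℕ} [Fact p.Prime] (ν : PadicAlgCl p ≃+* ℂ) (a : ℕ) (S : Set ℤ[X]) : Prop :=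
  ∀ (Ω : Type) [Field Ω] [IsAlgClosed Ω] [CharZero Ω]
    (C : (Y : RedAV p ν) → (κ : Type) → ((TM Ω Y) [⋀^κ]→ₗ[Ω] Ω) → Prop),
    IsCycleSystemS Ω C → IsRosatiPositive Ω C → AreTate Ω C → ∀ Y : RedAV p ν, OfMembers a S Y →
    (∀ (r : ℕ) (z : (TM Ω Y) [⋀^Fin r × Fin 2]→ₗ[Ω] Ω), C Y (Fin r × Fin 2) z →
      IsNumTrivial Ω C z → z = 0) ∧
    ∀ (α : Y.X.H1), IsPolar Y.X α → ∀ r m : ℕ, 2 * (2 * r + m) = finrank ℚ Y.X.H1 →
      ∀ z : (TM Ω Y) [⋀^Fin r × Fin 2]→ₗ[Ω] Ω, C Y (Fin r × Fin 2) z → ¬ IsNumTrivial Ω C z →
        IsNumPrim C α m z → IsPosClass α m z

/-- **The numerical standard conjecture of Hodge type** for all products of powers of the members of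
a large family over the field with `p ^ a` elements. -/
theorem result (p : ℕ) [Fact p.Prime] (a : ℕ) (ha : 1 ≤ a) :
    ∃ (C : ℝ) (g0 : ℕ) (S : ℕ → Finset ℤ[X]), IsLargeFamily p a C g0 S ∧
      ∀ ν : PadicAlgCl p ≃+* ℂ, Holds ν a {P | ∃ g, P ∈ S g} := by
  obtain ⟨C, g0, S, h1, h2⟩ := exists_largeFamily p a ha
  refine ⟨C, g0, S, h1, fun ν Ω _ _ _ C hC hR hT Y hY => ?_⟩
  have hrel : HasElementaryRelationsS Y := elementaryS_of_elementary (h2 ν Y hY)
  have hY' : IsPowersTimesSupersingular Y Y := fun i =>
    Or.inr ⟨i, RingHom.id _, 1, 1, one_pos, one_pos, rfl, rfl⟩
  exact ⟨fun r z hz h0 => hom_eq_num hC hT hrel hY' hz h0,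
    fun α hα r m hrm z hz hz0 hprim => numerical hC hR hT hrel hY' hα hrm hz hz0 hprim⟩

end Pool.Agent.Results.MP_c0b458_ag.FixedFieldProducts
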