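import Mathlib
import Pool.Agent.X311.NumHodge

/-!
# The numerical standard conjecture of Hodge type for all powers of abelian varieties of dimension at
# most five over finite fields, and for abelian varieties with elementary Frobenius relations

Over an algebraic closure of the field with `p` elements each abelian variety is isogenous to the
reduction `Y` of an abelian variety of CM type (`RedAV`; Honda, Tate). The field of definition has
`p ^ a` elements, `X = Y.X` is the lifting, a product of abelian varieties `X_i` of CM type `(E_i, Φ_i)`,
with rational homology `H_1(X) = ∏ E_i` (`Y.X.H1`), and `π_i ∈ E_i` is the Frobenius endomorphism of the
reduction of `X_i`. The cohomology of `Y`, with coefficients in an algebraically closed field `Ω` (an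
algebraic closure of `ℚ_ℓ`), consists of the alternating forms on `Ω ⊗ H_1(X)`.

Let `Z` be an abelian variety of this kind such that

* the dimension of `Z` (the product of one copy of each factor, a field `E_i` of degree `2 d` belongs
  to dimension `d`) is at most five, and no two factors of `Z` form an exceptional pair (`IsExcPair`,
  an elliptic curve and a fourfold with a certain relation between their Frobenius eigenvalues); this
  contains all simple abelian varieties `Z` of dimension at most five; or more generally
* all multiplicative relations between the Frobenius eigenvalues of `Z`, `p` and the roots of unity are
  products of elementary relations (`HasElementaryRelationsS`): relations of length at most two,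
  relations between eigenvalues of a good set of factors of `Z` (`IsGoodSetS`: of total dimension at
  most five without exceptional pairs, or factors of dimension at most three such that any two factors
  of dimension three are isogenous or have CM fields with different Galois closures or Galois CM fields),
  and the relations which belong to Weil classes of imaginary quadratic fields of dimension at most six,
  if `p` splits in the field in the case of dimension six.

Let `Y` be isogenous to **any product of powers of the simple factors of `Z` and of a supersingular
abelian variety** (`IsPowersTimesSupersingular`). So the dimension of `Y` is arbitrary. We prove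
the numerical Hodge standard conjecture for `Y` and all (compatible) polarizations:

1. a class of algebraic cycles on `Y` which is numerically equivalent to zero is zero;
2. if `z` is an algebraic cycle of codimension `r`, `dim Y = 2 r + m`, with rational coefficients,
   whose product with the power `m + 1` of the polarization is numerically equivalent to zero, and `z`
   is not numerically equivalent to zero, then `(-1)^r z · z · E^m > 0`.

The space of the classes of algebraic cycles of degree `card κ` on `Y`, with rational coefficients, is
`C Y κ`. The properties of these spaces that are used are known theorems (`IsCycleSystemS`): they are
closed under sums, cup products, pull-backs and push-forwards, they contain the Hodge classes of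
degree two of the liftings (Lefschetz), the split Weil classes of degree four and six of the liftings
(Markman) and the Hodge classes of degree four of the liftings that are products of elliptic curves and
abelian surfaces (Ramón Marí), and the Tate classes of degree two are combinations of such classes
(Tate); the positivity of the Rosati involution (Weil, `IsRosatiPositive`); classes of cycles are Tate
classes over finite extensions (`AreTate`). The polarizations are those compatible with the complex
multiplications of the lifting (`IsPolar`); by theorems of Honda, Tate and Zink each polarized abelian
variety over an algebraic closure of a finite field is isogenous to the reduction of such a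
polarized abelian variety.

The proof: all Tate classes on `Y` are combinations of products, pull-backs and push-forwards of
divisor classes and reductions of Weil classes; the cup product of a cycle with its conjugate
relation is nonzero, which gives the first assertion, so numerically primitive cycles are primitive;
and the sign of the intersection form on the classes belonging to one relation is multiplicative.
-/

set_option autoImplicit false

namespace Pool.Agent.Results.MP_c0b458_ag.PowersAndProducts

open Module Pool.Agent.W495.TA Pool.Agent.W547.KB Pool.Agent.TH117.PO Pool.Agent.TH117.BL
  Pool.Agent.Y137.SF Pool.Agent.Y137.HS Pool.Agent.X311.NumHodge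

/-- **The numerical standard conjecture of Hodge type** for all products of powers of the simple factors
of `Z` and of supersingular abelian varieties, if the dimension of `Z` is at most five and `Z` has no
exceptional pairs, or if the relations between the Frobenius eigenvalues of `Z` are products of
elementary relations. -/
theorem result (p : ℕ) [Fact p.Prime] (ν : PadicAlgCl p ≃+* ℂ) (Ω : Type) [Field Ω]
    [IsAlgClosed Ω] [CharZero Ω]
    (C : (Y : RedAV p ν) → (κ : Type) → ((TM Ω Y) [⋀^κ]→ₗ[Ω] Ω) → Prop)
    (hC : IsCycleSystemS Ω C) (hR : IsRosatiPositive Ω C) (hT : AreTate Ω C) (Z Y : RedAV p ν)
    (hZ : (∑ i, finrank ℚ (Z.X.factor i).E ≤ 10 ∧ ∀ i k, ¬ IsExcPair Z i k) ∨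
      HasElementaryRelationsS Z)
    (hY : IsPowersTimesSupersingular Z Y) :
    (∀ (r : ℕ) (z : (TM Ω Y) [⋀^Fin r × Fin 2]→ₗ[Ω] Ω), C Y (Fin r × Fin 2) z →
      IsNumTrivial Ω C z → z = 0) ∧
    ∀ (α : Y.X.H1), IsPolar Y.X α → ∀ r m : ℕ, 2 * (2 * r + m) = finrank ℚ Y.X.H1 →
      ∀ z : (TM Ω Y) [⋀^Fin r × Fin 2]→ₗ[Ω] Ω, C Y (Fin r × Fin 2) z → ¬ IsNumTrivial Ω C z →
        IsNumPrim C α m z → IsPosClass α m z := by
  have hrel : HasElementaryRelationsS Z := hZ.elim (fun h => elementary_of_le_ten h.1 h.2) id
  exact ⟨fun r z hz h0 => hom_eq_num hC hT hrel hY hz h0,
    fun α hα r m hrm z hz hz0 hprim => numerical hC hR hT hrel hY hα hrm hz hz0 hprim⟩

end Pool.Agent.Results.MP_c0b458_ag.PowersAndProducts
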