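import Pool.Agent.X268.TR.Num

/-!
# The numerical Hodge standard conjecture for abelian varieties with bad reduction

Let `X` be an abelian variety of dimension `n` over a field `k` of characteristic `p`, `D` a polarization. `X` is
defined over a finitely generated field, and so over local fields `F` of characteristic `p` (Laurent
series over finite fields); after a finite extension `X` has semistable reduction over `F`. Let `t` be the
toric rank and `B` the abelian part of the reduction, an abelian variety of dimension `n - t` over a
finite field.

**Theorem.** If the Hodge index theorem holds for the algebraic cycles on `B`, then it holds for those on `X`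
in all codimensions. More precisely, if the Hodge index theorem holds on `B` for the cycles modulo
`ℓ`-adic homological equivalence, then homological and numerical equivalence coincide on `X`, and
`(-1)^j z z D^(n-2j) > 0` for each numerically primitive cycle `z` of codimension `j` which is not
numerically equivalent to zero.

By a theorem of Clozel the homological and the numerical equivalence coincide on `B` for
infinitely many primes `ℓ`; so the numerical Hodge standard conjecture for `X` follows from the numerical Hodge
standard conjecture for `B`. This is an induction step: the conjecture for `X` follows from the conjecture
in the smaller dimension `n - t`, if `X` has bad reduction (`t > 0`) at one place. The hypothesis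
is a theorem if `B` has dimension at most three or is an abelian fourfold (Ancona), if `B` is one of the
abelian varieties over finite fields in the starting results (dimension five, products of powers of
varieties with elementary Frobenius relations), or if `B = 0` (totally toric reduction). So, for instance,
the numerical Hodge standard conjecture holds for all abelian varieties of dimension at most `4 + t` that have
a place of semistable reduction with toric rank `t`. (`hA` is the theorem of Lieberman and Kleiman.)

The statement uses the coefficients of the classes of cycles on `X` with respect to the splitting of the
cohomology of `X` by a Frobenius element, see `IsSemistable`; all the properties listed there are theorems.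

The proof: a class of a cycle on `X` is an invariant of `SL 2` acting on the exterior algebra of
the toric part `V ⊗ ℚ²` (with the monodromy operator `N` as the raising operator, and weight zero), so by the
first fundamental theorem its coefficients are invariant, up to the sign `(-1)^s`, under the exchange of the
`x i` and the `y i`. So `(-1)^j z z D^m` is a sum over pairs `(X, Y)` of disjoint sets with `s`
elements each of the values `(-1)^(j - s)` times the form of `B × (P¹)^(t - 2 s)` at the primitive class
with the coefficients `coef X Y P z`. For these the positivity follows from the one for `B`, by induction on
the number of the projective lines.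
-/

set_option autoImplicit false

universe u v

namespace Pool.Agent.Results.MP_c0b458_ag.SemistableReduction

open Pool.Agent.X268.SR Pool.Agent.X268.TR Pool.Agent.Y137.HD

/-- **The numerical Hodge standard conjecture for an abelian variety with semistable reduction (of any toric
rank) follows from the Hodge index theorem for the abelian part of the reduction.** -/
theorem result
    -- the abelian variety `X`
    {A : Type u} [CommRing A] [Algebra ℚ A] (n : ℕ) (gr : ℕ → Submodule ℚ A) (deg : A →ₗ[ℚ] ℚ)
    (D : A) (hX : IsCycleRing n gr deg D) (hA : LefschetzA n gr D)
    -- the abelian part `B` of the reduction
    {R : Type v} [CommRing R] [Algebra ℚ R] (b : ℕ) (grB : ℕ → Submodule ℚ R) (degB : R →ₗ[ℚ] ℚ)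
    (DB : R) (hB : IsLHR b grB degB DB)
    -- the semistable reduction
    (t : ℕ) (c : Fin t → ℚ) (q : ℚ)
    (coef : Finset (Fin t) → Finset (Fin t) → Finset (Fin t) → A →ₗ[ℚ] R)
    (h : IsSemistable n gr deg D b grB degB DB t c q coef) :
    (∀ i ≤ n, ∀ z ∈ gr i, IsNumTrivial n gr deg i z → z = 0) ∧
    ∀ j, 2 * j ≤ n → ∀ z ∈ gr j, IsNumTrivial n gr deg (n - j + 1) (D ^ (n - 2 * j + 1) * z) →
      ¬ IsNumTrivial n gr deg j z → 0 < (-1) ^ j * deg (z * z * D ^ (n - 2 * j)) :=
  ⟨fun _ hi _ hz h0 => homEqNum hX hB h hi (fun l _ _ _ z hz => hA l (by omega) z hz) hz h0,
    fun _ hj _ hz hp hne => numerical hX hA hB h hj hz hp hne⟩

end Pool.Agent.Results.MP_c0b458_ag.SemistableReduction
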